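import Pool.Agent.Results.MP_4977d9_al.NoUniversal

set_option autoImplicit false

/-!
# Nil algebras with three generators which are no sections of given algebraic algebras

Over a countable field let `A 0, A 1, …` be algebraic algebras of countable dimension. Then there is a
nil algebra with three generators which is not a homomorphic image of a subalgebra of any `A j`. In
particular there is no universal algebraic algebra of countable dimension, not even for the nil
algebras with three generators, and not even if homomorphic images of subalgebras are allowed.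
-/

namespace Pool.Agent.Results.MP_4977d9_al.NilSections

open Pool.Agent.Helper30.NilUniv Pool.Agent.Results.MP_4977d9_al.NoUniversal

universe u v

variable {F : Type u} [Field F]

/-- the letters -/
noncomputable def lt (F : Type u) [Field F] (k : Fin 3) : W F :=
  MonoidAlgebra.single (FreeMonoid.of k) 1

/-- a nonempty word lies in the algebra without unit generated by the letters -/
theorem word_mem (w : M) (hw : w.toList ≠ []) :
    (MonoidAlgebra.single w (1 : F) : W F) ∈ NonUnitalAlgebra.adjoin F (Set.range (lt F)) := by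
  induction w using FreeMonoid.recOn with
  | one => simp at hw
  | of_mul x w ih =>
    have hx : (MonoidAlgebra.single (FreeMonoid.of x) (1 : F) : W F) ∈
        NonUnitalAlgebra.adjoin F (Set.range (lt F)) :=
      NonUnitalAlgebra.subset_adjoin F ⟨x, rfl⟩
    by_cases h : w.toList = []
    · have : w = 1 := FreeMonoid.toList.injective (by simpa using h)
      subst this
      rw [mul_one]
      exact hx
    · have h1 : (MonoidAlgebra.single (FreeMonoid.of x * w) (1 : F) : W F) =
          MonoidAlgebra.single (FreeMonoid.of x) 1 * MonoidAlgebra.single w 1 := by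
        rw [MonoidAlgebra.single_mul_single, one_mul]
      rw [h1]
      exact mul_mem hx (ih h)

theorem mem_Wp {z : W F} : z ∈ Wp F ↔ ∀ w ∈ z.coeff.support, w.toList ≠ [] := Iff.rfl

/-- the polynomials without constant term are the algebra generated by the letters -/
theorem Wp_eq : Wp F = NonUnitalAlgebra.adjoin F (Set.range (lt F)) := by
  classical
  apply le_antisymm
  · intro z hz
    have h1 : z = ∑ w ∈ z.coeff.support, (z.coeff w) • (MonoidAlgebra.single w (1 : F) : W F) := by
      conv_lhs => rw [← z.sum_coeff_single]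
      refine Finset.sum_congr rfl fun w _ => ?_
      rw [MonoidAlgebra.smul_single, smul_eq_mul, mul_one]
    rw [h1]
    refine sum_mem fun w hw => ?_
    exact SMulMemClass.smul_mem _ (word_mem w (hz w hw))
  · rw [NonUnitalAlgebra.adjoin_le_iff]
    rintro _ ⟨k, rfl⟩
    intro w hw
    unfold lt at hw
    rw [MonoidAlgebra.coeff_single] at hw
    have := Finsupp.support_single_subset hw
    rw [Finset.mem_singleton] at this
    subst this
    simp

/-- the inclusion of the unitization of a subalgebra -/
noncomputable def uinc {A : Type v} [NonUnitalRing A] [Module F A] [IsScalarTower F A A]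
    [SMulCommClass F A A] (S : NonUnitalSubalgebra F A) : Unitization F S →ₐ[F] Unitization F A :=
  Unitization.lift ((Unitization.inrNonUnitalAlgHom F A).comp (NonUnitalSubalgebraClass.subtype S))

theorem uinc_inr {A : Type v} [NonUnitalRing A] [Module F A] [IsScalarTower F A A]
    [SMulCommClass F A A] (S : NonUnitalSubalgebra F A) (s : S) :
    uinc S (s : Unitization F S) = ((s : A) : Unitization F A) := by
  simp [uinc]

theorem uinc_inj {A : Type v} [NonUnitalRing A] [Module F A] [IsScalarTower F A A]
    [SMulCommClass F A A] (S : NonUnitalSubalgebra F A) : Function.Injective (uinc S) := by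
  rw [injective_iff_map_eq_zero]
  intro x hx
  induction x using Unitization.ind with
  | inl_add_inr r s =>
    rw [map_add, uinc_inr] at hx
    have h1 : uinc S (Unitization.inl r : Unitization F S) = (Unitization.inl r : Unitization F A) := by
      have h2 : (Unitization.inl r : Unitization F S) = algebraMap F _ r := rfl
      rw [h2, AlgHom.commutes]
      rfl
    rw [h1] at hx
    have h3 := congrArg (fun t : Unitization F A => t.fst) hx
    have h4 := congrArg (fun t : Unitization F A => t.snd) hx
    simp at h3 h4
    rw [h3, h4]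
    simp

/-- the main construction -/
theorem main' (F : Type u) [Field F] [Countable F] (A : ℕ → Type v) [∀ j, NonUnitalRing (A j)]
    [∀ j, Module F (A j)] [∀ j, IsScalarTower F (A j) (A j)] [∀ j, SMulCommClass F (A j) (A j)]
    [∀ j, Countable (A j)]
    (halg : ∀ j, ∀ a : A j, ∃ p : Polynomial F, p ≠ 0 ∧ p.coeff 0 = 0 ∧
      Polynomial.aeval (a : Unitization F (A j)) p = 0) :
    ∃ (Q : Type u) (_ : Ring Q) (_ : Algebra F Q) (x : Fin 3 → Q),
      Countable Q ∧ (∀ b ∈ NonUnitalAlgebra.adjoin F (Set.range x), IsNilpotent b) ∧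
      ∀ (j : ℕ) (S : NonUnitalSubalgebra F (A j)),
        ¬ ∃ f : S →ₙₐ[F] NonUnitalAlgebra.adjoin F (Set.range x), Function.Surjective f := by
  classical
  have hne : Nonempty (Σ j, (Fin 3 → A j)) := ⟨⟨0, fun _ => 0⟩⟩
  obtain ⟨tr, htr⟩ := exists_surjective_nat (Σ j, (Fin 3 → A j))
  have hex : ∀ (i : ℕ) (w : M), ∃ p : Polynomial F, w.toList ≠ [] → (p ≠ 0 ∧ p.coeff 0 = 0 ∧
      Polynomial.aeval (FreeMonoid.lift
        (fun k => (((tr i).2 k : A (tr i).1) : Unitization F (A (tr i).1))) w) p = 0) := by
    intro i w
    by_cases hw : w.toList = []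
    · exact ⟨0, fun h => absurd hw h⟩
    · obtain ⟨c, hc⟩ := exists_val (F := F) (tr i).2 w hw
      obtain ⟨p, h1, h2, h3⟩ := halg _ c
      exact ⟨p, fun _ => ⟨h1, h2, by rw [hc]; exact h3⟩⟩
  choose pol hpol using hex
  obtain ⟨L, hnil, hnot⟩ := exists_ideal pol fun i w hw => ⟨(hpol i w hw).1, (hpol i w hw).2.1⟩
  let π : W F →ₐ[F] (W F ⧸ J L) := Ideal.Quotient.mkₐ F (J L)
  have hπsurj : Function.Surjective π := Ideal.Quotient.mkₐ_surjective F (J L)
  have hπker : ∀ z, π z = 0 ↔ z ∈ J L := fun z => Ideal.Quotient.eq_zero_iff_mem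
  have hBeq : NonUnitalAlgebra.adjoin F (Set.range fun k => π (lt F k)) =
      (Wp F).map (π : W F →ₙₐ[F] (W F ⧸ J L)) := by
    rw [Wp_eq, NonUnitalAlgHom.map_adjoin]
    congr 1
    ext y
    constructor
    · rintro ⟨k, rfl⟩
      exact ⟨lt F k, ⟨k, rfl⟩, rfl⟩
    · rintro ⟨_, ⟨k, rfl⟩, rfl⟩
      exact ⟨k, rfl⟩
  refine ⟨W F ⧸ J L, inferInstance, inferInstance, fun k => π (lt F k), hπsurj.countable, ?_, ?_⟩
  · intro b hb
    rw [hBeq] at hb
    obtain ⟨z, hz, hzb⟩ := hb
    obtain ⟨n, hn⟩ := hnil z hz
    have hzb' : π z = b := hzb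
    exact ⟨n, by rw [← hzb', ← map_pow]; exact (hπker _).2 hn⟩
  · rintro j S ⟨f, hf⟩
    choose a ha using fun k : Fin 3 => hf ⟨π (lt F k), NonUnitalAlgebra.subset_adjoin F ⟨k, rfl⟩⟩
    obtain ⟨i, hi⟩ := htr ⟨j, fun k => (a k : A j)⟩
    obtain ⟨w, hw, hw2⟩ := hnot i
    apply hw2
    rw [← hπker]
    have h3 := (hpol i w hw).2.2
    rw [hi] at h3
    have hword1 : FreeMonoid.lift (fun k => (((a k : S) : A j) : Unitization F (A j))) w =
        uinc S (FreeMonoid.lift (fun k => ((a k : S) : Unitization F S)) w) := by
      have : FreeMonoid.lift (fun k => (((a k : S) : A j) : Unitization F (A j))) =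
          ((uinc S : Unitization F S →* Unitization F (A j)).comp
            (FreeMonoid.lift (fun k => ((a k : S) : Unitization F S)))) := by
        refine FreeMonoid.hom_eq fun k => ?_
        simp only [MonoidHom.comp_apply, FreeMonoid.lift_eval_of, MonoidHom.coe_coe]
        rw [uinc_inr]
      exact DFunLike.congr_fun this w
    have h5 : Polynomial.aeval (FreeMonoid.lift (fun k => ((a k : S) : Unitization F S)) w)
        (pol i w) = 0 := by
      apply uinc_inj S
      rw [map_zero, ← Polynomial.aeval_algHom_apply, ← hword1]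
      exact h3
    let φ : Unitization F S →ₐ[F] (W F ⧸ J L) :=
      Unitization.lift ((NonUnitalSubalgebraClass.subtype _).comp f)
    have hφ : ∀ c : S, φ (c : Unitization F S) = (f c : W F ⧸ J L) := by
      intro c
      simp [φ]
    have hword : ∀ w : M, φ (FreeMonoid.lift (fun k => ((a k : S) : Unitization F S)) w) =
        π (MonoidAlgebra.single w 1) := by
      intro w
      have : ((φ : Unitization F S →* (W F ⧸ J L)).comp
          (FreeMonoid.lift (fun k => ((a k : S) : Unitization F S)))) =
          (π : W F →* (W F ⧸ J L)).comp (MonoidAlgebra.of F M) := by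
        refine FreeMonoid.hom_eq fun k => ?_
        simp only [MonoidHom.comp_apply, FreeMonoid.lift_eval_of, MonoidHom.coe_coe]
        rw [hφ, ha]
        rfl
      exact DFunLike.congr_fun this w
    have h4 := congrArg φ h5
    rw [map_zero, ← Polynomial.aeval_algHom_apply, hword, Polynomial.aeval_algHom_apply] at h4
    exact h4

/-- nilpotent elements of a subalgebra without unit are nilpotent in its unitization -/
theorem nil_unitization {Q : Type v} [Ring Q] [Algebra F Q] (B : NonUnitalSubalgebra F Q) (b : B)
    (hb : IsNilpotent (b : Q)) : IsNilpotent (b : Unitization F B) := by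
  obtain ⟨n, hn⟩ := hb
  have h1 : ∀ n : ℕ, ∃ c : B, (b : Unitization F B) ^ (n + 1) = (c : Unitization F B) ∧
      (c : Q) = (b : Q) ^ (n + 1) := by
    intro n
    induction n with
    | zero => exact ⟨b, by simp, by simp⟩
    | succ n ih =>
      obtain ⟨c, hc1, hc2⟩ := ih
      refine ⟨c * b, ?_, ?_⟩
      · rw [pow_succ, hc1]
        exact (Unitization.inr_mul F c b).symm
      · rw [pow_succ, ← hc2]
        rfl
  obtain ⟨c, hc1, hc2⟩ := h1 n
  refine ⟨n + 1, ?_⟩
  rw [hc1]
  have h2 : c = 0 := by
    apply Subtype.ext
    rw [hc2, pow_succ, hn, zero_mul]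
    rfl
  rw [h2]
  simp

/-- every element generates a finite dimensional subalgebra -/
def Algebraic (F : Type u) [Field F] (A : Type v) [NonUnitalRing A] [Module F A]
    [IsScalarTower F A A] [SMulCommClass F A A] : Prop :=
  ∀ a : A, FiniteDimensional F (NonUnitalAlgebra.adjoin F {a})

/-- every element is nilpotent (as an element of the algebra with a unit adjoined) -/
def Nil (F : Type u) [Field F] (A : Type v) [NonUnitalRing A] [Module F A]
    [IsScalarTower F A A] [SMulCommClass F A A] : Prop :=
  ∀ a : A, IsNilpotent (a : Unitization F A)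

/-- the algebra is generated by three elements -/
def ThreeGenerated (F : Type u) [Field F] (A : Type v) [NonUnitalRing A] [Module F A]
    [IsScalarTower F A A] [SMulCommClass F A A] : Prop :=
  ∃ x : Fin 3 → A, NonUnitalAlgebra.adjoin F (Set.range x) = ⊤

/-- `B` is a homomorphic image of a subalgebra of `A` -/
def IsSection (F : Type u) [Field F] (A : Type v) [NonUnitalRing A] [Module F A]
    [IsScalarTower F A A] [SMulCommClass F A A] (B : Type u) [NonUnitalRing B] [Module F B]
    [IsScalarTower F B B] [SMulCommClass F B B] : Prop :=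
  ∃ (S : NonUnitalSubalgebra F A) (f : S →ₙₐ[F] B), Function.Surjective f

/-- `A` is an algebraic algebra of countable dimension which maps onto every algebraic algebra of
countable dimension -/
def IsUniversal (F : Type u) [Field F] (A : Type v) [NonUnitalRing A] [Module F A]
    [IsScalarTower F A A] [SMulCommClass F A A] : Prop :=
  Algebraic F A ∧ Module.rank F A ≤ Cardinal.aleph0 ∧
    ∀ (B : Type u) [NonUnitalRing B] [Module F B] [IsScalarTower F B B] [SMulCommClass F B B],
      Algebraic F B → Module.rank F B ≤ Cardinal.aleph0 → ∃ f : A →ₙₐ[F] B, Function.Surjective f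

/-- no algebra of the sequence has the three-generated nil algebra `B` as a section -/
def Missed (F : Type u) [Field F] (A : ℕ → Type v) [∀ j, NonUnitalRing (A j)]
    [∀ j, Module F (A j)] [∀ j, IsScalarTower F (A j) (A j)] [∀ j, SMulCommClass F (A j) (A j)] :
    Prop :=
  ∃ (B : Type u) (_ : NonUnitalRing B) (_ : Module F B) (_ : IsScalarTower F B B)
    (_ : SMulCommClass F B B), ThreeGenerated F B ∧ Nil F B ∧ Algebraic F B ∧
      Module.rank F B ≤ Cardinal.aleph0 ∧ ∀ j, ¬ IsSection F (A j) B

theorem missed (F : Type u) [Field F] [Countable F] (A : ℕ → Type v) [∀ j, NonUnitalRing (A j)]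
    [∀ j, Module F (A j)] [∀ j, IsScalarTower F (A j) (A j)] [∀ j, SMulCommClass F (A j) (A j)]
    (halg : ∀ j, Algebraic F (A j)) (hrk : ∀ j, Module.rank F (A j) ≤ Cardinal.aleph0) :
    Missed F A := by
  have hc : ∀ j, Countable (A j) := fun j => countable_of_rank (hrk j)
  obtain ⟨Q, _, _, x, hQ, hnil, hno⟩ := main' F A (fun j a => exists_poly a (halg j a))
  refine ⟨NonUnitalAlgebra.adjoin F (Set.range x), inferInstance, inferInstance, inferInstance,
    inferInstance, ?_, fun b => nil_unitization _ b (hnil b b.2),
    fun b => finite_of_nilpotent _ b (hnil b b.2), ?_, fun j h => ?_⟩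
  · refine ⟨fun k => ⟨x k, NonUnitalAlgebra.subset_adjoin F ⟨k, rfl⟩⟩, ?_⟩
    have h1 : NonUnitalAlgebra.adjoin F (Set.range x) =
        (NonUnitalAlgebra.adjoin F (Set.range fun k => (⟨x k, NonUnitalAlgebra.subset_adjoin F ⟨k, rfl⟩⟩ :
          NonUnitalAlgebra.adjoin F (Set.range x)))).map
          (NonUnitalSubalgebraClass.subtype (NonUnitalAlgebra.adjoin F (Set.range x))) := by
      rw [NonUnitalAlgHom.map_adjoin]
      congr 1
      ext y
      constructor
      · rintro ⟨k, rfl⟩
        exact ⟨_, ⟨k, rfl⟩, rfl⟩
      · rintro ⟨_, ⟨k, rfl⟩, rfl⟩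
        exact ⟨k, rfl⟩
    rw [eq_top_iff]
    intro b _
    have h2 := h1.le b.2
    obtain ⟨c, hc, hcb⟩ := h2
    have h3 : c = b := Subtype.ext hcb
    rw [← h3]
    exact hc
  · refine (rank_le_card F _).trans ?_
    rw [Cardinal.mk_le_aleph0_iff]
    exact Subtype.countable
  · obtain ⟨S, f, hf⟩ := h
    exact hno j S ⟨f, hf⟩

/-- **Nil algebras which are no sections.** Over a countable field `F` let `A 0, A 1, …` be algebraic
algebras of countable dimension. There is a nil algebra `B` with three generators (so algebraic and of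
countable dimension) which is not a homomorphic image of any subalgebra of any `A j`. In particular no
algebraic algebra of countable dimension maps onto every algebraic algebra of countable dimension. -/
theorem result (F : Type u) [Field F] [Countable F] :
    (∀ (A : ℕ → Type v) [∀ j, NonUnitalRing (A j)] [∀ j, Module F (A j)]
      [∀ j, IsScalarTower F (A j) (A j)] [∀ j, SMulCommClass F (A j) (A j)],
      (∀ j, Algebraic F (A j)) → (∀ j, Module.rank F (A j) ≤ Cardinal.aleph0) → Missed F A) ∧
    ¬ ∃ (U : Type v) (_ : NonUnitalRing U) (_ : Module F U)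
      (_ : IsScalarTower F U U) (_ : SMulCommClass F U U), IsUniversal F U :=
  ⟨fun A _ _ _ _ halg hrk => missed F A halg hrk, NoUniversal.result F⟩

end Pool.Agent.Results.MP_4977d9_al.NilSections
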